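import Pool.Agent.H29.RS.Targets
import Pool.Agent.H87.RT.MSLa

/-!
# Energy method in short intervals: the left side as a Dirichlet polynomial, mean squares in short
windows (lemmas for the modules MSA and FMA)
-/

set_option autoImplicit false

open Complex MeasureTheory Set Filter Topology

namespace Pool.Agent.H11.RS

open Pool.Agent.H29.RS Pool.Agent.H29.RT Pool.Agent.H25.DP Pool.Agent.H25.DL

/-- the Gaussian weight -/
noncomputable def gw (β : ℝ) (k : ℕ) (ξ : ℝ) : ℝ := Real.exp (-(β ^ 2 * (Real.log k - ξ) ^ 2 / 4))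

lemma gw_nonneg (β : ℝ) (k : ℕ) (ξ : ℝ) : 0 ≤ gw β k ξ := (Real.exp_pos _).le

lemma gw_le_one (β : ℝ) (k : ℕ) (ξ : ℝ) : gw β k ξ ≤ 1 := by
  unfold gw
  have h := mul_nonneg (sq_nonneg β) (sq_nonneg (Real.log k - ξ))
  exact Real.exp_le_one_iff.2 (by linarith)

lemma continuous_gw (β : ℝ) (k : ℕ) : Continuous (gw β k) := by
  unfold gw
  fun_prop

/-- the left side as a Dirichlet polynomial -/
theorem norm_AL {ι : Type} [Fintype ι] {f : ι → Fac} {D K : ℝ}
    (g3 : ∀ T : ℝ, 1 ≤ T → ∀ z ∈ TU f D T, (∀ l, 1 ≤ z l) ∧ (nn f z : ℝ) ≤ K * T ^ D)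
    (g4 : ∀ z : ι → ℕ, (∀ l, 1 ≤ z l) → lam f z = Real.log (nn f z))
    (β T ξ : ℝ) (hT : 1 ≤ T) (N : ℕ) (hN : K * T ^ D < N + 1) (u : ℝ) :
    ‖AL f β D T ξ u‖ = ‖∑ k ∈ Finset.Icc 1 N, bt f D T k * (gw β k ξ : ℂ) *
      cexp (((-(u * Real.log k) : ℝ) : ℂ) * I)‖ := by
  classical
  rw [← Complex.norm_conj]
  congr 1
  unfold AL
  rw [map_sum]
  have hmap : ∀ z ∈ TU f D T, nn f z ∈ Finset.Icc 1 N := by
    intro z hz
    obtain ⟨h1, h2⟩ := g3 T hT z hz
    rw [Finset.mem_Icc]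
    constructor
    · unfold nn
      exact Nat.one_le_iff_ne_zero.2 (Finset.prod_ne_zero_iff.2 fun l _ =>
        pow_ne_zero _ (by have := h1 l; omega))
    · have h3 : (nn f z : ℝ) < ((N + 1 : ℕ) : ℝ) := by
        push_cast
        exact lt_of_le_of_lt h2 hN
      have h4 : nn f z < N + 1 := by exact_mod_cast h3
      omega
  rw [← Finset.sum_fiberwise_of_maps_to hmap]
  refine Finset.sum_congr rfl fun k _ => ?_
  unfold bt
  rw [Finset.sum_mul, Finset.sum_mul]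
  refine Finset.sum_congr ?_ ?_
  · ext z
    simp only [Finset.mem_filter]
  intro z hz
  rw [Finset.mem_filter] at hz
  obtain ⟨hz1, hz2⟩ := hz
  have h4 := g4 z (g3 T hT z hz1).1
  rw [map_mul, map_mul, Complex.conj_conj, Complex.conj_ofReal, h4, hz2]
  have h6 : (starRingEnd ℂ) (cexp ((u * Real.log (k : ℝ) : ℝ) * I)) =
      cexp (((-(u * Real.log k) : ℝ) : ℂ) * I) := by
    rw [← Complex.exp_conj, map_mul, Complex.conj_ofReal, Complex.conj_I]
    congr 1
    push_cast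
    ring
  rw [h6]
  unfold gw
  ring

/-- the mean value theorem without weights -/
theorem mvt0 (h1 : T_MVT) : ∃ C : ℝ, 0 < C ∧ ∀ (N : ℕ) (a : ℕ → ℂ) (H V : ℝ), 1 ≤ N → 0 ≤ V →
    |(∫ u in H..(H + V), ‖∑ k ∈ Finset.Icc 1 N, a k *
        cexp (((-(u * Real.log k) : ℝ) : ℂ) * I)‖ ^ 2) -
      V * ∑ k ∈ Finset.Icc 1 N, ‖a k‖ ^ 2| ≤
      C * N * Real.log (N + 1) * ∑ k ∈ Finset.Icc 1 N, ‖a k‖ ^ 2 := by
  obtain ⟨C, hC, h⟩ := h1
  refine ⟨C, hC, fun N a H V hN hV => ?_⟩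
  have h2 := h N a (fun _ _ => 1) (fun _ _ => 0) H (H + V) 0 hN (by linarith) le_rfl
    (fun k x _ => hasDerivAt_const x 1) (fun k => continuousOn_const) (fun k x _ => by simp)
    (fun k x _ => by simp)
  simp only [mul_one, norm_one, one_pow, add_zero, intervalIntegral.integral_const, smul_eq_mul,
    add_sub_cancel_left] at h2
  rw [← Finset.sum_mul, mul_comm (∑ k ∈ Finset.Icc 1 N, ‖a k‖ ^ 2) V] at h2
  exact h2

/-- Gaussian tails beat powers -/
theorem tail (A a : ℝ) (ha : 0 < a) : ∀ᶠ T : ℝ in atTop,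
    A * (T ^ 3 * Real.exp (-(a * Real.log T ^ 2))) ≤ 1 := by
  have e1 : Tendsto (fun L : ℝ => A * Real.exp (3 * L - a * L ^ 2)) atTop (𝓝 (A * 0)) := by
    refine Tendsto.const_mul _ (Real.tendsto_exp_atBot.comp ?_)
    have e2 : (fun L : ℝ => 3 * L - a * L ^ 2) = fun L : ℝ => L * (3 - a * L) := by
      ext L; ring
    rw [e2]
    refine Tendsto.atTop_mul_atBot₀ tendsto_id ?_
    have e3 : Tendsto (fun L : ℝ => a * L) atTop atTop := Tendsto.const_mul_atTop ha tendsto_id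
    have e4 := tendsto_neg_atTop_atBot.comp e3
    simpa [sub_eq_add_neg, Function.comp_def] using tendsto_atBot_add_const_left atTop 3 e4
  rw [mul_zero] at e1
  have e5 := (e1.comp Real.tendsto_log_atTop).eventually (Iic_mem_nhds zero_lt_one)
  filter_upwards [e5, eventually_gt_atTop 0] with T hT hT0
  have e6 : A * Real.exp (3 * Real.log T - a * Real.log T ^ 2) ≤ 1 := hT
  have e7 : Real.exp (3 * Real.log T - a * Real.log T ^ 2) =
      T ^ 3 * Real.exp (-(a * Real.log T ^ 2)) := by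
    rw [sub_eq_add_neg, Real.exp_add]
    congr 1
    rw [show 3 * Real.log T = Real.log T + Real.log T + Real.log T by ring, Real.exp_add,
      Real.exp_add, Real.exp_log hT0]
    ring
  rwa [e7] at e6

/-- upper bound for the Gaussian integral -/
theorem gauss_le {β : ℝ} (hβ : 0 < β) (a b l : ℝ) (hab : a ≤ b) :
    ∫ ξ in a..b, Real.exp (-(β ^ 2 * (l - ξ) ^ 2 / 4)) ^ 2 ≤ √(2 * Real.pi) / β := by
  obtain ⟨G, hG⟩ : ∃ G : ℝ → ℝ, G = fun v => Real.exp (-(β ^ 2 / 2) * v ^ 2) := ⟨_, rfl⟩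
  have hGi : Integrable G := by rw [hG]; exact integrable_exp_neg_mul_sq (by positivity)
  have h1 : ∫ v, G v = √(2 * Real.pi) / β := by
    rw [hG, integral_gaussian]
    rw [show Real.pi / (β ^ 2 / 2) = (2 * Real.pi) / β ^ 2 by field_simp,
      Real.sqrt_div (by positivity), Real.sqrt_sq hβ.le]
  have h2 : ∫ ξ in a..b, Real.exp (-(β ^ 2 * (l - ξ) ^ 2 / 4)) ^ 2 =
      ∫ v in (l - b)..(l - a), G v := by
    rw [← intervalIntegral.integral_comp_sub_left]
    refine intervalIntegral.integral_congr fun ξ _ => ?_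
    rw [hG]
    change Real.exp (-(β ^ 2 * (l - ξ) ^ 2 / 4)) ^ 2 = Real.exp (-(β ^ 2 / 2) * (l - ξ) ^ 2)
    rw [← Real.exp_nat_mul]
    congr 1
    push_cast
    ring
  rw [h2, intervalIntegral.integral_of_le (by linarith), ← h1]
  exact setIntegral_le_integral hGi (ae_of_all _ fun v => by rw [hG]; positivity)

/-- the Gaussian integral away from the centre -/
theorem gauss_far {β R a b l : ℝ} (hβ : 0 < β) (hR : 0 ≤ R) (hab : a ≤ b)
    (h : l ≤ a - R ∨ b + R ≤ l) :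
    ∫ ξ in a..b, Real.exp (-(β ^ 2 * (l - ξ) ^ 2 / 4)) ^ 2 ≤
      (b - a) * Real.exp (-(β ^ 2 * R ^ 2 / 4)) := by
  have h1 : ∫ ξ in a..b, Real.exp (-(β ^ 2 * (l - ξ) ^ 2 / 4)) ^ 2 ≤
      ∫ _ξ in a..b, Real.exp (-(β ^ 2 * R ^ 2 / 4)) := by
    refine intervalIntegral.integral_mono_on hab ?_ (by simp) fun ξ hξ => ?_
    · exact Continuous.intervalIntegrable (by fun_prop) _ _
    · rw [← Real.exp_nat_mul]
      apply Real.exp_le_exp.2
      have h2 : R ^ 2 ≤ (l - ξ) ^ 2 := by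
        rcases h with h | h
        · nlinarith [hξ.1]
        · nlinarith [hξ.2]
      have h3 : 0 ≤ β ^ 2 := sq_nonneg _
      push_cast
      nlinarith [mul_le_mul_of_nonneg_left h2 h3, mul_nonneg h3 (sq_nonneg (l - ξ))]
  refine h1.trans (le_of_eq ?_)
  rw [intervalIntegral.integral_const, smul_eq_mul]

/-- the left side is continuous -/
theorem continuous_AL {ι : Type} [Fintype ι] (f : ι → Fac) (β D T : ℝ) :
    Continuous fun p : ℝ × ℝ => AL f β D T p.1 p.2 := by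
  unfold AL
  refine continuous_finsetSum _ fun z _ => ?_
  fun_prop

end Pool.Agent.H11.RS
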