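import Pool.Agent.H11.RS.ALg
import Pool.Agent.H89.Cubic.Div

/-!
# Energy method in short intervals: module FMA, the left side over a small set
-/

set_option autoImplicit false

open Complex MeasureTheory Set Filter Topology

namespace Pool.Agent.H11.RS

open Pool.Agent.H29.RS Pool.Agent.H29.RT Pool.Agent.H25.DP Pool.Agent.H25.DL

/-- the square of a Dirichlet polynomial -/
theorem sq_poly (N : ℕ) (b : ℕ → ℂ) : ∃ e : ℕ → ℂ,
    (∀ u : ℝ, (∑ k ∈ Finset.Icc 1 N, b k * cexp (((-(u * Real.log k) : ℝ) : ℂ) * I)) ^ 2 =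
      ∑ n ∈ Finset.Icc 1 (N ^ 2), e n * cexp (((-(u * Real.log n) : ℝ) : ℂ) * I)) ∧
    ∀ A : ℝ, 0 ≤ A → (∀ n ∈ Finset.Icc 1 (N ^ 2), (n.divisors.card : ℝ) ≤ A) →
      ∑ n ∈ Finset.Icc 1 (N ^ 2), ‖e n‖ ^ 2 ≤ A * (∑ k ∈ Finset.Icc 1 N, ‖b k‖ ^ 2) ^ 2 := by
  obtain ⟨P, hP⟩ : ∃ P : Finset (ℕ × ℕ), P = Finset.Icc 1 N ×ˢ Finset.Icc 1 N := ⟨_, rfl⟩
  have hmap : ∀ z ∈ P, z.1 * z.2 ∈ Finset.Icc 1 (N ^ 2) := by
    intro z hz
    rw [hP, Finset.mem_product, Finset.mem_Icc, Finset.mem_Icc] at hz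
    rw [Finset.mem_Icc]
    refine ⟨Nat.mul_pos hz.1.1 hz.2.1, ?_⟩
    rw [pow_two]
    exact Nat.mul_le_mul hz.1.2 hz.2.2
  refine ⟨fun n => ∑ z ∈ P.filter (fun z => z.1 * z.2 = n), b z.1 * b z.2, ?_, ?_⟩
  · intro u
    rw [pow_two, Finset.sum_mul_sum, ← Finset.sum_product', ← hP,
      ← Finset.sum_fiberwise_of_maps_to hmap]
    refine Finset.sum_congr rfl fun n _ => ?_
    simp only
    rw [Finset.sum_mul]
    refine Finset.sum_congr rfl fun z hz => ?_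
    rw [Finset.mem_filter, hP, Finset.mem_product, Finset.mem_Icc, Finset.mem_Icc] at hz
    have hz1 : ((z.1 : ℕ) : ℝ) ≠ 0 := by
      have := hz.1.1.1
      positivity
    have hz2 : ((z.2 : ℕ) : ℝ) ≠ 0 := by
      have := hz.1.2.1
      positivity
    have h1 : Real.log (n : ℝ) = Real.log z.1 + Real.log z.2 := by
      rw [← hz.2]
      push_cast
      exact Real.log_mul hz1 hz2
    rw [h1]
    have h2 : cexp (((-(u * (Real.log z.1 + Real.log z.2)) : ℝ) : ℂ) * I) =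
        cexp (((-(u * Real.log z.1) : ℝ) : ℂ) * I) * cexp (((-(u * Real.log z.2) : ℝ) : ℂ) * I) := by
      rw [← Complex.exp_add]
      congr 1
      push_cast
      ring
    rw [h2]
    ring
  · intro A hA hd
    have hcs : ∀ n ∈ Finset.Icc 1 (N ^ 2),
        ‖∑ z ∈ P.filter (fun z => z.1 * z.2 = n), b z.1 * b z.2‖ ^ 2 ≤
        A * ∑ z ∈ P.filter (fun z => z.1 * z.2 = n), ‖b z.1‖ ^ 2 * ‖b z.2‖ ^ 2 := by
      intro n hn
      have hn1 := (Finset.mem_Icc.1 hn).1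
      have hcard : ((P.filter fun z : ℕ × ℕ => z.1 * z.2 = n).card : ℝ) ≤ A := by
        refine le_trans ?_ (hd n hn)
        have h2 : (P.filter fun z : ℕ × ℕ => z.1 * z.2 = n).card ≤ n.divisors.card := by
          refine Finset.card_le_card_of_injOn (fun z => z.1) ?_ ?_
          · intro z hz
            rw [Finset.mem_coe, Finset.mem_filter] at hz
            rw [Finset.mem_coe, Nat.mem_divisors]
            exact ⟨⟨z.2, hz.2.symm⟩, by omega⟩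
          · intro z hz w hw hzw
            rw [Finset.mem_coe, Finset.mem_filter, hP, Finset.mem_product, Finset.mem_Icc,
              Finset.mem_Icc] at hz hw
            simp only at hzw
            have hz1 := hz.1.1.1
            refine Prod.ext hzw ?_
            have h3 : z.1 * z.2 = z.1 * w.2 := by rw [hz.2, hzw, hw.2]
            exact Nat.eq_of_mul_eq_mul_left hz1 h3
        exact_mod_cast h2
      calc ‖∑ z ∈ P.filter (fun z => z.1 * z.2 = n), b z.1 * b z.2‖ ^ 2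
          ≤ (∑ z ∈ P.filter (fun z => z.1 * z.2 = n), ‖b z.1 * b z.2‖) ^ 2 :=
            pow_le_pow_left₀ (norm_nonneg _) (norm_sum_le _ _) 2
        _ ≤ ((P.filter fun z : ℕ × ℕ => z.1 * z.2 = n).card : ℝ) *
            ∑ z ∈ P.filter (fun z => z.1 * z.2 = n), ‖b z.1 * b z.2‖ ^ 2 :=
            sq_sum_le_card_mul_sum_sq
        _ ≤ A * ∑ z ∈ P.filter (fun z => z.1 * z.2 = n), ‖b z.1‖ ^ 2 * ‖b z.2‖ ^ 2 := by
            have h4 : ∀ z : ℕ × ℕ, ‖b z.1 * b z.2‖ ^ 2 = ‖b z.1‖ ^ 2 * ‖b z.2‖ ^ 2 := fun z => by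
              rw [norm_mul, mul_pow]
            simp only [h4]
            exact mul_le_mul_of_nonneg_right hcard (Finset.sum_nonneg fun z _ => by positivity)
    refine (Finset.sum_le_sum hcs).trans ?_
    rw [← Finset.mul_sum, Finset.sum_fiberwise_of_maps_to hmap, hP, Finset.sum_product,
      pow_two (∑ k ∈ Finset.Icc 1 N, ‖b k‖ ^ 2), Finset.sum_mul_sum]

/-- the fourth moment over short intervals -/
theorem fourth (h1 : T_MVT) (e : ℝ) (he : 0 < e) : ∃ C : ℝ, 0 < C ∧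
    ∀ (N : ℕ) (b : ℕ → ℂ) (H V : ℝ), 1 ≤ N → 0 ≤ V →
      ∫ u in H..(H + V), ‖∑ k ∈ Finset.Icc 1 N, b k *
        cexp (((-(u * Real.log k) : ℝ) : ℂ) * I)‖ ^ 4 ≤
      C * (V + (N : ℝ) ^ 2) * (N : ℝ) ^ e * (∑ k ∈ Finset.Icc 1 N, ‖b k‖ ^ 2) ^ 2 := by
  obtain ⟨C₀, hC₀, h2⟩ := mvt0 h1
  obtain ⟨e₁, he₁⟩ : ∃ e₁ : ℝ, e₁ = e / 4 := ⟨_, rfl⟩
  have he₁0 : 0 < e₁ := by rw [he₁]; linarith
  obtain ⟨C₁, hC₁, hdiv⟩ := Pool.Agent.H89.Cubic.div_bound e₁ he₁0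
  refine ⟨(1 + C₀ * (2 ^ e₁ / e₁)) * C₁, by positivity, ?_⟩
  intro N b H V hN hV
  obtain ⟨c, hc1, hc2⟩ := sq_poly N b
  have hN1 : (1 : ℝ) ≤ N := by exact_mod_cast hN
  have hN0 : (0 : ℝ) < N := by linarith
  obtain ⟨S, hS⟩ : ∃ S : ℝ, S = ∑ k ∈ Finset.Icc 1 N, ‖b k‖ ^ 2 := ⟨_, rfl⟩
  rw [← hS] at hc2 ⊢
  have h3 := h2 (N ^ 2) c H V (Nat.one_le_pow _ _ hN) hV
  have h4 : ∀ u : ℝ, ‖∑ k ∈ Finset.Icc 1 N, b k * cexp (((-(u * Real.log k) : ℝ) : ℂ) * I)‖ ^ 4 =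
      ‖∑ n ∈ Finset.Icc 1 (N ^ 2), c n * cexp (((-(u * Real.log n) : ℝ) : ℂ) * I)‖ ^ 2 := by
    intro u
    rw [← hc1 u, norm_pow, ← pow_mul]
  simp only [h4]
  have h5 : ∀ n ∈ Finset.Icc 1 (N ^ 2), (n.divisors.card : ℝ) ≤ C₁ * (N : ℝ) ^ (2 * e₁) := by
    intro n hn
    rw [Finset.mem_Icc] at hn
    refine (hdiv n hn.1).trans (mul_le_mul_of_nonneg_left ?_ hC₁.le)
    have h6 : (n : ℝ) ≤ (N : ℝ) ^ 2 := by exact_mod_cast hn.2
    calc (n : ℝ) ^ e₁ ≤ ((N : ℝ) ^ 2) ^ e₁ := Real.rpow_le_rpow (Nat.cast_nonneg _) h6 he₁0.le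
      _ = (N : ℝ) ^ (2 * e₁) := by
          rw [← Real.rpow_natCast (N : ℝ) 2, ← Real.rpow_mul hN0.le]
          norm_num
  have h7 := hc2 _ (by positivity) h5
  have h8 : Real.log (((N ^ 2 : ℕ) : ℝ) + 1) ≤ 2 ^ e₁ / e₁ * (N : ℝ) ^ (2 * e₁) := by
    have h9 : ((N ^ 2 : ℕ) : ℝ) + 1 ≤ 2 * (N : ℝ) ^ 2 := by
      push_cast
      nlinarith
    calc Real.log (((N ^ 2 : ℕ) : ℝ) + 1) ≤ (((N ^ 2 : ℕ) : ℝ) + 1) ^ e₁ / e₁ :=
          Real.log_le_rpow_div (by positivity) he₁0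
      _ ≤ (2 * (N : ℝ) ^ 2) ^ e₁ / e₁ := by gcongr
      _ = 2 ^ e₁ / e₁ * (N : ℝ) ^ (2 * e₁) := by
          rw [Real.mul_rpow (by norm_num) (by positivity), ← Real.rpow_natCast (N : ℝ) 2,
            ← Real.rpow_mul hN0.le]
          push_cast
          ring
  obtain ⟨X, hX⟩ : ∃ X : ℝ, X = (N : ℝ) ^ (2 * e₁) := ⟨_, rfl⟩
  have hX1 : 1 ≤ X := by rw [hX]; exact Real.one_le_rpow hN1 (by linarith)
  have hXe : (N : ℝ) ^ e = X * X := by
    rw [hX, ← Real.rpow_add hN0, he₁]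
    congr 1
    ring
  rw [← hX] at h7 h8
  obtain ⟨Z, hZ⟩ : ∃ Z : ℝ, Z = ∑ n ∈ Finset.Icc 1 (N ^ 2), ‖c n‖ ^ 2 := ⟨_, rfl⟩
  rw [← hZ] at h3 h7
  have hZ0 : 0 ≤ Z := by rw [hZ]; exact Finset.sum_nonneg fun n _ => sq_nonneg _
  have h10 := (abs_le.1 h3).2
  have hK0 : (0 : ℝ) ≤ 2 ^ e₁ / e₁ := by positivity
  have h11 : C₀ * ((N ^ 2 : ℕ) : ℝ) * Real.log (((N ^ 2 : ℕ) : ℝ) + 1) ≤
      C₀ * (2 ^ e₁ / e₁) * (N : ℝ) ^ 2 * X := by
    push_cast at h8 ⊢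
    calc C₀ * (N : ℝ) ^ 2 * Real.log ((N : ℝ) ^ 2 + 1) ≤
        C₀ * (N : ℝ) ^ 2 * (2 ^ e₁ / e₁ * X) := mul_le_mul_of_nonneg_left h8 (by positivity)
      _ = _ := by ring
  have h12 : V + C₀ * ((N ^ 2 : ℕ) : ℝ) * Real.log (((N ^ 2 : ℕ) : ℝ) + 1) ≤
      (1 + C₀ * (2 ^ e₁ / e₁)) * (V + (N : ℝ) ^ 2) * X := by
    have h13 : V ≤ V * X := le_mul_of_one_le_right hV hX1
    have h14 : 0 ≤ C₀ * (2 ^ e₁ / e₁) * V * X := by positivity
    have h15 : 0 ≤ (N : ℝ) ^ 2 * X := by positivity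
    have h16 : (1 + C₀ * (2 ^ e₁ / e₁)) * (V + (N : ℝ) ^ 2) * X =
        V * X + C₀ * (2 ^ e₁ / e₁) * V * X + (N : ℝ) ^ 2 * X +
          C₀ * (2 ^ e₁ / e₁) * (N : ℝ) ^ 2 * X := by ring
    rw [h16]
    linarith
  calc _ ≤ (V + C₀ * ((N ^ 2 : ℕ) : ℝ) * Real.log (((N ^ 2 : ℕ) : ℝ) + 1)) * Z := by
        rw [add_mul]
        linarith
    _ ≤ ((1 + C₀ * (2 ^ e₁ / e₁)) * (V + (N : ℝ) ^ 2) * X) * (C₁ * X * S ^ 2) :=
        mul_le_mul h12 h7 hZ0 (by positivity)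
    _ = _ := by rw [hXe]; ring

/-- Cauchy-Schwarz on a small set -/
theorem cs_set {f : ℝ → ℝ} (hf : Continuous f) {H V : ℝ} {E : Set ℝ}
    (hE : MeasurableSet E) (hEs : E ⊆ Icc H (H + V)) {B : ℝ} (hV : 0 ≤ V)
    (hB : ∫ u in H..(H + V), f u ^ 2 ≤ B) :
    ∫ u in E, f u ≤ (volume.real E) ^ (1 / 2 : ℝ) * B ^ (1 / 2 : ℝ) := by
  have hfin : volume E ≠ ⊤ := ne_top_of_le_ne_top (by simp) (measure_mono hEs)
  have hI1 : IntegrableOn f E := (hf.continuousOn.integrableOn_Icc (a := H) (b := H + V)).mono_set hEs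
  have hI2 : IntegrableOn (fun u => f u ^ 2) (Icc H (H + V)) :=
    (hf.pow 2).continuousOn.integrableOn_Icc
  have hI2' := hI2.mono_set hEs
  obtain ⟨m, hm⟩ : ∃ m : ℝ, m = volume.real E := ⟨_, rfl⟩
  have hm0 : 0 ≤ m := by rw [hm]; exact measureReal_nonneg
  obtain ⟨A, hA⟩ : ∃ A : ℝ, A = ∫ u in E, f u := ⟨_, rfl⟩
  obtain ⟨Q, hQ⟩ : ∃ Q : ℝ, Q = ∫ u in E, f u ^ 2 := ⟨_, rfl⟩
  have hQ0 : 0 ≤ Q := by rw [hQ]; exact integral_nonneg fun u => sq_nonneg _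
  have hQB : Q ≤ B := by
    refine le_trans ?_ hB
    rw [hQ, intervalIntegral.integral_of_le (by linarith), ← integral_Icc_eq_integral_Ioc]
    exact setIntegral_mono_set hI2 (Filter.Eventually.of_forall fun u => sq_nonneg _)
      hEs.eventuallyLE
  have hAQ : A ^ 2 ≤ m * Q := by
    rcases eq_or_lt_of_le hm0 with h0 | h0
    · have h1 : volume E = 0 := by
        rw [← h0] at hm
        have := (measureReal_eq_zero_iff hfin).1 hm.symm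
        exact this
      have h2 : A = 0 := by
        rw [hA]
        exact setIntegral_measure_zero _ h1
      rw [h2, ← h0]
      simp
    · have hIc : IntegrableOn (fun _ : ℝ => (A / m) ^ 2) E := integrableOn_const hfin
      have h1 : ∫ u in E, (f u - A / m) ^ 2 = Q - A ^ 2 / m := by
        have h2 : ∀ u, (f u - A / m) ^ 2 = f u ^ 2 + (-(2 * (A / m)) * f u + (A / m) ^ 2) :=
          fun u => by ring
        simp only [h2]
        have hI1' : IntegrableOn (fun u => -(2 * (A / m)) * f u) E := hI1.const_mul _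
        have i1 : ∫ u in E, (f u ^ 2 + (-(2 * (A / m)) * f u + (A / m) ^ 2)) =
            (∫ u in E, f u ^ 2) + ∫ u in E, (-(2 * (A / m)) * f u + (A / m) ^ 2) :=
          integral_add hI2' (hI1'.add hIc)
        have i2 : ∫ u in E, (-(2 * (A / m)) * f u + (A / m) ^ 2) =
            (∫ u in E, -(2 * (A / m)) * f u) + ∫ _u in E, (A / m) ^ 2 :=
          integral_add hI1' hIc
        rw [i1, i2, integral_const_mul, ← hA, ← hQ, setIntegral_const, smul_eq_mul, ← hm]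
        field_simp
        ring
      have h3 : 0 ≤ ∫ u in E, (f u - A / m) ^ 2 := integral_nonneg fun u => sq_nonneg _
      rw [h1, sub_nonneg, div_le_iff₀ h0] at h3
      linarith
  rw [← hA, ← hm, ← Real.mul_rpow hm0 (hQ0.trans hQB), ← Real.sqrt_eq_rpow]
  exact Real.le_sqrt_of_sq_le (hAQ.trans (mul_le_mul_of_nonneg_left hQB hm0))

/-- (FMA) -/
theorem pf_FMA (h : T_GRS) (h1 : T_MVT) : T_FMA := by
  intro ι _ f D e hID hD he
  obtain ⟨-, g2, ⟨K, hK, g3⟩, g4, g5, -⟩ := h ι f D hID hD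
  obtain ⟨e', he'⟩ : ∃ e' : ℝ, e' = 2 * e / (3 * D) := ⟨_, rfl⟩
  have he0 : 0 < e' := by rw [he']; positivity
  obtain ⟨C, hC, h2⟩ := fourth h1 e' he0
  obtain ⟨Cb, hCb, hb⟩ := g5 e' he0
  obtain ⟨q, hq⟩ : ∃ q : ℝ, q = K + 1 := ⟨_, rfl⟩
  have hq0 : 0 < q := by linarith
  have hq1 : 1 ≤ q := by linarith
  obtain ⟨C', hC'⟩ : ∃ C' : ℝ, C' = C * q ^ 2 * (q ^ (3 * e') * Cb ^ 2) := ⟨_, rfl⟩
  have hC'0 : 0 < C' := by rw [hC']; positivity
  refine ⟨C' ^ (1 / 2 : ℝ), by positivity, ?_⟩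
  intro β hβ T hT ξ H V hV E hE hEs
  have hT0 : 0 < T := by linarith
  have hV0 : 0 ≤ V := by linarith
  have hTD : 1 ≤ T ^ D := Real.one_le_rpow hT hD.le
  obtain ⟨N, hN⟩ : ∃ N : ℕ, N = ⌊K * T ^ D⌋₊ + 1 := ⟨_, rfl⟩
  have hN1 : 1 ≤ N := by omega
  have hNlt : K * T ^ D < N + 1 := by
    have := Nat.lt_floor_add_one (K * T ^ D)
    rw [hN]
    push_cast
    linarith
  have hNle : (N : ℝ) ≤ q * T ^ D := by
    have := Nat.floor_le (by positivity : 0 ≤ K * T ^ D)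
    rw [hN, hq]
    push_cast
    linarith
  have hN0 : (0 : ℝ) < N := by exact_mod_cast hN1
  have hb' : ∑ k ∈ Finset.Icc 1 N, ‖bt f D T k * (gw β k ξ : ℂ)‖ ^ 2 ≤ Cb * (N : ℝ) ^ e' := by
    refine le_trans (Finset.sum_le_sum fun k _ => ?_) ((hb N hN1).2 T hT)
    rw [norm_mul, Complex.norm_real, Real.norm_of_nonneg (gw_nonneg β k ξ)]
    exact pow_le_pow_left₀ (mul_nonneg (norm_nonneg _) (gw_nonneg β k ξ))
      (mul_le_of_le_one_right (norm_nonneg _) (gw_le_one β k ξ)) 2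
  have h3 := h2 N (fun k => bt f D T k * (gw β k ξ : ℂ)) H V hN1 hV0
  have h4 : ∫ u in H..(H + V), (‖AL f β D T ξ u‖ ^ 2) ^ 2 ≤
      C' * (T ^ (2 * e) * (V + T ^ (2 * D))) := by
    have h5 : ∀ u, (‖AL f β D T ξ u‖ ^ 2) ^ 2 = ‖∑ k ∈ Finset.Icc 1 N, bt f D T k *
        (gw β k ξ : ℂ) * cexp (((-(u * Real.log k) : ℝ) : ℂ) * I)‖ ^ 4 := fun u => by
      rw [norm_AL g3 g4 β T ξ hT N hNlt u, ← pow_mul]
    simp only [h5]
    refine h3.trans ?_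
    have h6 : (∑ k ∈ Finset.Icc 1 N, ‖bt f D T k * (gw β k ξ : ℂ)‖ ^ 2) ^ 2 ≤
        (Cb * (N : ℝ) ^ e') ^ 2 :=
      pow_le_pow_left₀ (Finset.sum_nonneg fun k _ => sq_nonneg _) hb' 2
    have h7 : V + (N : ℝ) ^ 2 ≤ q ^ 2 * (V + T ^ (2 * D)) := by
      have h8 : (N : ℝ) ^ 2 ≤ q ^ 2 * T ^ (2 * D) := by
        calc (N : ℝ) ^ 2 ≤ (q * T ^ D) ^ 2 := pow_le_pow_left₀ hN0.le hNle 2
          _ = q ^ 2 * T ^ (2 * D) := by
              rw [mul_pow, ← Real.rpow_natCast (T ^ D) 2, ← Real.rpow_mul hT0.le]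
              congr 2
              push_cast
              ring
      have h9 : V ≤ q ^ 2 * V := le_mul_of_one_le_left hV0 (one_le_pow₀ hq1)
      rw [mul_add]
      linarith
    have h10 : (N : ℝ) ^ e' * ((N : ℝ) ^ e') ^ 2 ≤ q ^ (3 * e') * T ^ (2 * e) := by
      calc (N : ℝ) ^ e' * ((N : ℝ) ^ e') ^ 2 = (N : ℝ) ^ (3 * e') := by
            rw [← Real.rpow_natCast ((N : ℝ) ^ e') 2, ← Real.rpow_mul hN0.le,
              ← Real.rpow_add hN0]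
            congr 1
            push_cast
            ring
        _ ≤ (q * T ^ D) ^ (3 * e') := Real.rpow_le_rpow hN0.le hNle (by linarith)
        _ = q ^ (3 * e') * T ^ (2 * e) := by
            rw [Real.mul_rpow hq0.le (by positivity), ← Real.rpow_mul hT0.le]
            congr 2
            rw [he']
            field_simp
    calc C * (V + (N : ℝ) ^ 2) * (N : ℝ) ^ e' *
          (∑ k ∈ Finset.Icc 1 N, ‖bt f D T k * (gw β k ξ : ℂ)‖ ^ 2) ^ 2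
        ≤ C * (q ^ 2 * (V + T ^ (2 * D))) * (N : ℝ) ^ e' * (Cb * (N : ℝ) ^ e') ^ 2 := by
          refine mul_le_mul (mul_le_mul_of_nonneg_right (mul_le_mul_of_nonneg_left h7 hC.le)
            (by positivity)) h6 (sq_nonneg _) (by positivity)
      _ = C * (q ^ 2 * (V + T ^ (2 * D))) * Cb ^ 2 * ((N : ℝ) ^ e' * ((N : ℝ) ^ e') ^ 2) := by ring
      _ ≤ C * (q ^ 2 * (V + T ^ (2 * D))) * Cb ^ 2 * (q ^ (3 * e') * T ^ (2 * e)) :=
          mul_le_mul_of_nonneg_left h10 (by positivity)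
      _ = _ := by rw [hC']; ring
  have hc : Continuous fun u => ‖AL f β D T ξ u‖ ^ 2 := by
    have := (continuous_AL f β D T).comp (Continuous.prodMk continuous_const continuous_id :
      Continuous fun u : ℝ => (ξ, u))
    exact this.norm.pow 2
  refine (cs_set hc hE hEs hV0 h4).trans (le_of_eq ?_)
  rw [Real.mul_rpow hC'0.le (by positivity), Real.mul_rpow (by positivity) (by positivity),
    ← Real.rpow_mul hT0.le]
  have h11 : 2 * e * (1 / 2 : ℝ) = e := by ring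
  rw [h11]
  ring

end Pool.Agent.H11.RS
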