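import Pool.Agent.H11.RS.ALg

/-!
# Energy method in short intervals: module MSA, mean square of the left side
-/

set_option autoImplicit false

open Complex MeasureTheory Set Filter Topology

namespace Pool.Agent.H11.RS

open Pool.Agent.H29.RS Pool.Agent.H29.RT Pool.Agent.H25.DP Pool.Agent.H25.DL

/-- mean square with Gaussian weights, over both variables -/
theorem msq (h1 : T_MVT) : ∃ C : ℝ, 0 < C ∧ ∀ (N : ℕ) (a : ℕ → ℂ) (β H V x y : ℝ), 1 ≤ N →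
    0 ≤ V → x ≤ y →
    |(∫ ξ in x..y, ∫ u in H..(H + V), ‖∑ k ∈ Finset.Icc 1 N, a k * (gw β k ξ : ℂ) *
        cexp (((-(u * Real.log k) : ℝ) : ℂ) * I)‖ ^ 2) -
      V * ∑ k ∈ Finset.Icc 1 N, ‖a k‖ ^ 2 * ∫ ξ in x..y, gw β k ξ ^ 2| ≤
      C * N * Real.log (N + 1) * (∑ k ∈ Finset.Icc 1 N, ‖a k‖ ^ 2) * (y - x) := by
  obtain ⟨C, hC, h2⟩ := mvt0 h1
  refine ⟨C, hC, fun N a β H V x y hN hV hxy => ?_⟩
  have hN1 : (1 : ℝ) ≤ N := by exact_mod_cast hN
  have hlog : 0 ≤ Real.log (N + 1) := Real.log_nonneg (by linarith)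
  have hS : 0 ≤ ∑ k ∈ Finset.Icc 1 N, ‖a k‖ ^ 2 := Finset.sum_nonneg fun k _ => sq_nonneg _
  obtain ⟨F, hF⟩ : ∃ F : ℝ → ℝ, F = fun ξ => ∫ u in H..(H + V),
    ‖∑ k ∈ Finset.Icc 1 N, a k * (gw β k ξ : ℂ) *
      cexp (((-(u * Real.log k) : ℝ) : ℂ) * I)‖ ^ 2 := ⟨_, rfl⟩
  obtain ⟨M, hM⟩ : ∃ M : ℝ → ℝ, M = fun ξ => V * ∑ k ∈ Finset.Icc 1 N,
    ‖a k‖ ^ 2 * gw β k ξ ^ 2 := ⟨_, rfl⟩
  obtain ⟨E, hE⟩ : ∃ E : ℝ, E = C * N * Real.log (N + 1) *
    (∑ k ∈ Finset.Icc 1 N, ‖a k‖ ^ 2) := ⟨_, rfl⟩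
  have hpt : ∀ ξ, |F ξ - M ξ| ≤ E := by
    intro ξ
    have h3 := h2 N (fun k => a k * (gw β k ξ : ℂ)) H V hN hV
    have h4 : ∀ k, ‖a k * (gw β k ξ : ℂ)‖ ^ 2 = ‖a k‖ ^ 2 * gw β k ξ ^ 2 := fun k => by
      rw [norm_mul, Complex.norm_real, Real.norm_of_nonneg (gw_nonneg β k ξ), mul_pow]
    simp only [h4] at h3
    rw [hF, hM, hE]
    refine h3.trans ?_
    refine mul_le_mul_of_nonneg_left (Finset.sum_le_sum fun k _ => ?_) (by positivity)
    have h5 : gw β k ξ ^ 2 ≤ 1 := pow_le_one₀ (gw_nonneg β k ξ) (gw_le_one β k ξ)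
    exact mul_le_of_le_one_right (sq_nonneg _) h5
  have hFc : Continuous F := by
    rw [hF]
    refine intervalIntegral.continuous_parametric_intervalIntegral_of_continuous' ?_ _ _
    refine Continuous.pow (Continuous.norm (continuous_finsetSum _ fun k _ => ?_)) 2
    have h6 : Continuous fun p : ℝ × ℝ => ((gw β k p.1 : ℝ) : ℂ) :=
      Complex.continuous_ofReal.comp ((continuous_gw β k).comp continuous_fst)
    exact (continuous_const.mul h6).mul (by fun_prop)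
  have hMc : Continuous M := by
    rw [hM]
    refine continuous_const.mul (continuous_finsetSum _ fun k _ => ?_)
    exact continuous_const.mul ((continuous_gw β k).pow 2)
  have hMi : ∫ ξ in x..y, M ξ = V * ∑ k ∈ Finset.Icc 1 N, ‖a k‖ ^ 2 *
      ∫ ξ in x..y, gw β k ξ ^ 2 := by
    rw [hM, intervalIntegral.integral_const_mul, intervalIntegral.integral_finsetSum]
    · congr 1
      refine Finset.sum_congr rfl fun k _ => ?_
      rw [intervalIntegral.integral_const_mul]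
    · intro k _
      exact (continuous_const.mul ((continuous_gw β k).pow 2)).intervalIntegrable _ _
  have hFi : (∫ ξ in x..y, ∫ u in H..(H + V), ‖∑ k ∈ Finset.Icc 1 N, a k * (gw β k ξ : ℂ) *
        cexp (((-(u * Real.log k) : ℝ) : ℂ) * I)‖ ^ 2) = ∫ ξ in x..y, F ξ := by rw [hF]
  rw [hFi, ← hMi, ← hE, ← intervalIntegral.integral_sub (hFc.intervalIntegrable _ _)
    (hMc.intervalIntegrable _ _)]
  have h7 := intervalIntegral.norm_integral_le_of_norm_le_const (a := x) (b := y) (C := E)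
    (f := fun ξ => F ξ - M ξ) fun ξ _ => by
      rw [Real.norm_eq_abs]
      exact hpt ξ
  rw [Real.norm_eq_abs, abs_of_nonneg (by linarith : 0 ≤ y - x)] at h7
  exact h7

/-- differences of energies -/
theorem E2_sub_le {ι : Type} [Fintype ι] (f : ι → Fac) (y₁ y₂ : ℝ) :
    E2 f y₂ - E2 f y₁ ≤ ∑ k ∈ Finset.Ioc ⌊y₁⌋₊ ⌊y₂⌋₊, ‖bc f k‖ ^ 2 := by
  unfold E2
  have j1 : Finset.Icc 1 ⌊y₂⌋₊ ⊆ Finset.Icc 1 ⌊y₁⌋₊ ∪ Finset.Ioc ⌊y₁⌋₊ ⌊y₂⌋₊ := by
    intro k hk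
    rw [Finset.mem_union, Finset.mem_Icc, Finset.mem_Ioc]
    rw [Finset.mem_Icc] at hk
    omega
  have j2 := Finset.sum_le_sum_of_subset_of_nonneg (f := fun k : ℕ => ‖bc f k‖ ^ 2) j1
    (fun k _ _ => sq_nonneg _)
  have j3 := Finset.sum_union (f := fun k : ℕ => ‖bc f k‖ ^ 2)
    (s₁ := Finset.Icc 1 ⌊y₁⌋₊) (s₂ := Finset.Ioc ⌊y₁⌋₊ ⌊y₂⌋₊) (by
      rw [Finset.disjoint_left]
      intro k hk hk'
      rw [Finset.mem_Icc] at hk
      rw [Finset.mem_Ioc] at hk'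
      omega)
  linarith

theorem E2_sub_eq {ι : Type} [Fintype ι] (f : ι → Fac) {y₁ y₂ : ℝ} (h : y₁ ≤ y₂) :
    E2 f y₂ - E2 f y₁ = ∑ k ∈ Finset.Ioc ⌊y₁⌋₊ ⌊y₂⌋₊, ‖bc f k‖ ^ 2 := by
  unfold E2
  have hf : ⌊y₁⌋₊ ≤ ⌊y₂⌋₊ := Nat.floor_le_floor h
  have j1 : Finset.Icc 1 ⌊y₂⌋₊ = Finset.Icc 1 ⌊y₁⌋₊ ∪ Finset.Ioc ⌊y₁⌋₊ ⌊y₂⌋₊ := by
    ext k
    rw [Finset.mem_union, Finset.mem_Icc, Finset.mem_Ioc, Finset.mem_Icc]
    omega
  have j3 := Finset.sum_union (f := fun k : ℕ => ‖bc f k‖ ^ 2)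
    (s₁ := Finset.Icc 1 ⌊y₁⌋₊) (s₂ := Finset.Ioc ⌊y₁⌋₊ ⌊y₂⌋₊) (by
      rw [Finset.disjoint_left]
      intro k hk hk'
      rw [Finset.mem_Icc] at hk
      rw [Finset.mem_Ioc] at hk'
      omega)
  rw [j1, j3]
  ring

theorem log_le_of_le_rpow {T x : ℝ} {k : ℕ} (hT : 0 < T) (hk : 1 ≤ k) (h : (k : ℝ) ≤ T ^ x) :
    Real.log k ≤ x * Real.log T := by
  have hk0 : (0 : ℝ) < k := by exact_mod_cast hk
  rw [← Real.log_rpow hT]
  exact Real.log_le_log hk0 h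

theorem le_log_of_rpow_le {T x : ℝ} {k : ℕ} (hT : 0 < T) (h : T ^ x ≤ (k : ℝ)) :
    x * Real.log T ≤ Real.log k := by
  rw [← Real.log_rpow hT]
  exact Real.log_le_log (Real.rpow_pos_of_pos hT _) h

/-- (MSA) -/
theorem pf_MSA (h : T_GRS) (h1 : T_MVT) : T_MSA := by
  intro ι _ f β D x₁ x₂ δ κ hID hβ hx₁ hx hδ hxD hDκ hκ
  have hD : 0 < D := by linarith
  obtain ⟨-, g2, ⟨K, hK, g3⟩, g4, g5, -⟩ := h ι f D hID hD
  obtain ⟨C₀, hC₀, hms⟩ := msq h1
  obtain ⟨e, he⟩ : ∃ e : ℝ, e = (κ - D) / 16 := ⟨_, rfl⟩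
  have he0 : 0 < e := by rw [he]; linarith
  obtain ⟨Cb, hCb, hb⟩ := g5 e he0
  obtain ⟨C1, hC1, hb1⟩ := g5 1 one_pos
  obtain ⟨q, hq⟩ : ∃ q : ℝ, q = K + 1 := ⟨_, rfl⟩
  have hq0 : 0 < q := by linarith
  have hq1 : 1 ≤ q := by linarith
  obtain ⟨c, hc⟩ : ∃ c : ℝ, c = (κ - D) / 2 := ⟨_, rfl⟩
  have hc0 : 0 < c := by rw [hc]; linarith
  have hc1 : c ≤ 1 := by rw [hc]; linarith
  -- constants
  obtain ⟨K1, hK1⟩ : ∃ K1 : ℝ, K1 = √(4 * Real.pi) / β := ⟨_, rfl⟩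
  have hK10 : 0 ≤ K1 := by rw [hK1]; positivity
  obtain ⟨K2, hK2⟩ : ∃ K2 : ℝ, K2 = C₀ * q * (2 / e) * (Cb * q ^ e) * ((x₂ - x₁) / e) := ⟨_, rfl⟩
  have ha : 0 < β ^ 2 * δ ^ 2 / 4 := by positivity
  have hev := ((((tail (2 * (K1 * C1)) _ ha).and (tail (2 * ((x₂ - x₁) * (C1 * q))) _ ha)).and
    ((H39.DP.ev_rpow (8 * K2) (D + D * e + 2 * e) (κ - c) (by
      rw [hc, he]
      nlinarith)).and (H39.DP.ev_rpow (2 * q) D 1 (by linarith)))).and (eventually_ge_atTop 1))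
  obtain ⟨T₀, hT₀⟩ := eventually_atTop.1 hev
  refine ⟨c, T₀, hc0, fun T hT H V hH hV hHV => ?_⟩
  obtain ⟨⟨⟨t1, t2⟩, t3, t4⟩, hT1⟩ := hT₀ T hT
  rw [Real.rpow_one] at t4
  have hT0 : 0 < T := by linarith
  have hL0 : 0 ≤ Real.log T := Real.log_nonneg hT1
  have hV0 : 0 ≤ V := le_trans (by positivity) hV
  have hTD : 1 ≤ T ^ D := Real.one_le_rpow hT1 hD.le
  obtain ⟨N, hN⟩ : ∃ N : ℕ, N = ⌊K * T ^ D⌋₊ + 1 := ⟨_, rfl⟩
  have hN1 : 1 ≤ N := by omega
  have hNlt : K * T ^ D < N + 1 := by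
    have := Nat.lt_floor_add_one (K * T ^ D)
    rw [hN]
    push_cast
    linarith
  have hNle : (N : ℝ) ≤ q * T ^ D := by
    have := Nat.floor_le (by positivity : 0 ≤ K * T ^ D)
    rw [hN, hq]
    push_cast
    linarith
  have hN0 : (0 : ℝ) < N := by exact_mod_cast hN1
  obtain ⟨S, hS⟩ : ∃ S : ℝ, S = ∑ k ∈ Finset.Icc 1 N, ‖bt f D T k‖ ^ 2 := ⟨_, rfl⟩
  have hS0 : 0 ≤ S := by rw [hS]; exact Finset.sum_nonneg fun k _ => sq_nonneg _
  have hSb : S ≤ Cb * (N : ℝ) ^ e := by rw [hS]; exact (hb N hN1).2 T hT1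
  have hS1 : S ≤ C1 * (q * T) := by
    have h2 := (hb1 N hN1).2 T hT1
    rw [← hS, Real.rpow_one] at h2
    refine h2.trans (mul_le_mul_of_nonneg_left (hNle.trans ?_) hC1.le)
    refine mul_le_mul_of_nonneg_left ?_ hq0.le
    calc T ^ D ≤ T ^ (1 : ℝ) := Real.rpow_le_rpow_of_exponent_le hT1 (by linarith)
      _ = T := Real.rpow_one T
  have hAL : ∀ ξ u : ℝ, ‖AL f β D T ξ u‖ ^ 2 = ‖∑ k ∈ Finset.Icc 1 N, bt f D T k *
      (gw β k ξ : ℂ) * cexp (((-(u * Real.log k) : ℝ) : ℂ) * I)‖ ^ 2 := fun ξ u => by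
    rw [norm_AL g3 g4 β T ξ hT1 N hNlt u]
  have hxy : x₁ * Real.log T ≤ x₂ * Real.log T := mul_le_mul_of_nonneg_right hx.le hL0
  obtain ⟨A, hA⟩ : ∃ A : ℝ, A = ∫ ξ in (x₁ * Real.log T)..(x₂ * Real.log T),
    ∫ u in H..(H + V), ‖AL f β D T ξ u‖ ^ 2 := ⟨_, rfl⟩
  obtain ⟨J, hJ⟩ : ∃ J : ℕ → ℝ, J = fun k =>
    ∫ ξ in (x₁ * Real.log T)..(x₂ * Real.log T), gw β k ξ ^ 2 := ⟨_, rfl⟩
  have hJ0 : ∀ k, 0 ≤ J k := fun k => by
    rw [hJ]
    exact intervalIntegral.integral_nonneg hxy fun ξ _ => sq_nonneg _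
  have hm := hms N (bt f D T) β H V (x₁ * Real.log T) (x₂ * Real.log T) hN1 hV0 hxy
  have hA' : (∫ ξ in (x₁ * Real.log T)..(x₂ * Real.log T), ∫ u in H..(H + V),
      ‖∑ k ∈ Finset.Icc 1 N, bt f D T k * (gw β k ξ : ℂ) *
        cexp (((-(u * Real.log k) : ℝ) : ℂ) * I)‖ ^ 2) = A := by
    rw [hA]
    simp only [hAL]
  rw [hA', ← hS] at hm
  have hJ' : ∑ k ∈ Finset.Icc 1 N, ‖bt f D T k‖ ^ 2 *
      (∫ ξ in (x₁ * Real.log T)..(x₂ * Real.log T), gw β k ξ ^ 2) =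
      ∑ k ∈ Finset.Icc 1 N, ‖bt f D T k‖ ^ 2 * J k := by rw [hJ]
  rw [hJ'] at hm
  obtain ⟨M, hM⟩ : ∃ M : ℝ, M = ∑ k ∈ Finset.Icc 1 N, ‖bt f D T k‖ ^ 2 * J k := ⟨_, rfl⟩
  rw [← hM] at hm
  -- the error term
  have herr : C₀ * N * Real.log (N + 1) * S * (x₂ * Real.log T - x₁ * Real.log T) ≤
      1 / 2 * (V * T ^ (-c)) := by
    have p1 : Real.log T ≤ T ^ e / e := Real.log_le_rpow_div hT0.le he0
    have p2 : Real.log (N + 1) ≤ Real.log T := by
      refine Real.log_le_log (by positivity) ?_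
      have hN1' : (1 : ℝ) ≤ N := by exact_mod_cast hN1
      linarith
    have p3 : (N : ℝ) ^ e ≤ q ^ e * T ^ (D * e) := by
      calc (N : ℝ) ^ e ≤ (q * T ^ D) ^ e := Real.rpow_le_rpow hN0.le hNle he0.le
        _ = _ := by rw [Real.mul_rpow hq0.le (by positivity), ← Real.rpow_mul hT0.le]
    have p4 : T ^ κ / 4 * T ^ (-c) = T ^ (κ - c) / 4 := by
      rw [sub_eq_add_neg κ c, Real.rpow_add hT0]
      ring
    have hlogN : 0 ≤ Real.log ((N : ℝ) + 1) := Real.log_nonneg (by linarith)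
    have hx12 : 0 ≤ x₂ - x₁ := by linarith
    calc C₀ * N * Real.log (N + 1) * S * (x₂ * Real.log T - x₁ * Real.log T)
        = C₀ * N * Real.log (N + 1) * S * ((x₂ - x₁) * Real.log T) := by ring
      _ ≤ C₀ * (q * T ^ D) * (T ^ e / e) * (Cb * (q ^ e * T ^ (D * e))) *
          ((x₂ - x₁) * (T ^ e / e)) := by
          have p5 : S ≤ Cb * (q ^ e * T ^ (D * e)) :=
            hSb.trans (mul_le_mul_of_nonneg_left p3 hCb.le)
          have p6 : Real.log (N + 1) ≤ T ^ e / e := p2.trans p1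
          have p7 : C₀ * N * Real.log (N + 1) ≤ C₀ * (q * T ^ D) * (T ^ e / e) :=
            mul_le_mul (mul_le_mul_of_nonneg_left hNle hC₀.le) p6 hlogN (by positivity)
          refine mul_le_mul (mul_le_mul p7 p5 hS0 (by positivity)) ?_ (by positivity)
            (by positivity)
          exact mul_le_mul_of_nonneg_left p1 hx12
      _ = 1 / 2 * K2 * (T ^ D * T ^ (D * e) * T ^ e * T ^ e) := by
          rw [hK2]
          field_simp
      _ = 1 / 2 * K2 * T ^ (D + D * e + 2 * e) := by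
          rw [← Real.rpow_add hT0, ← Real.rpow_add hT0, ← Real.rpow_add hT0]
          congr 2
          ring
      _ ≤ 1 / 2 * (T ^ κ / 4 * T ^ (-c)) := by
          rw [p4]
          have hK20 : 0 ≤ K2 := by rw [hK2]; positivity
          have : 0 ≤ K2 * T ^ (D + D * e + 2 * e) := mul_nonneg hK20 (by positivity)
          linarith
      _ ≤ 1 / 2 * (V * T ^ (-c)) := by
          refine mul_le_mul_of_nonneg_left ?_ (by norm_num)
          exact mul_le_mul_of_nonneg_right hV (by positivity)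
  have hm1 := abs_le.1 (hm.trans herr)
  -- powers
  have hTc : T⁻¹ ≤ T ^ (-c) := by
    rw [← Real.rpow_neg_one]
    exact Real.rpow_le_rpow_of_exponent_le hT1 (by linarith)
  obtain ⟨w, hw⟩ : ∃ w : ℝ, w = Real.exp (-(β ^ 2 * δ ^ 2 / 4 * Real.log T ^ 2)) := ⟨_, rfl⟩
  have hw0 : 0 ≤ w := by rw [hw]; positivity
  have hw' : Real.exp (-(β ^ 2 * (δ * Real.log T) ^ 2 / 4)) = w := by
    rw [hw]
    congr 1
    ring
  rw [← hw] at t1 t2
  obtain ⟨G, hG⟩ : ∃ G : ℝ, G = √(2 * Real.pi) / β := ⟨_, rfl⟩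
  have hG0 : 0 ≤ G := by rw [hG]; positivity
  have hRδ : 0 ≤ δ * Real.log T := mul_nonneg hδ.le hL0
  rw [← hG]
  constructor
  · -- lower bound
    obtain ⟨y₁, hy₁⟩ : ∃ y : ℝ, y = T ^ (x₁ + δ) := ⟨_, rfl⟩
    obtain ⟨y₂, hy₂⟩ : ∃ y : ℝ, y = T ^ (x₂ - δ) := ⟨_, rfl⟩
    have hy₂0 : 0 ≤ y₂ := by rw [hy₂]; positivity
    have hy₂D : y₂ ≤ T ^ D := by
      rw [hy₂]
      exact Real.rpow_le_rpow_of_exponent_le hT1 (by linarith)
    obtain ⟨Q, hQ⟩ : ∃ Q : ℝ, Q = ∑ k ∈ Finset.Ioc ⌊y₁⌋₊ ⌊y₂⌋₊, ‖bc f k‖ ^ 2 := ⟨_, rfl⟩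
    have hQ0 : 0 ≤ Q := by rw [hQ]; exact Finset.sum_nonneg fun k _ => sq_nonneg _
    have hQ1 : E2 f y₂ - E2 f y₁ ≤ Q := by rw [hQ]; exact E2_sub_le f y₁ y₂
    have hQ2 : Q ≤ C1 * T := by
      rw [hQ]
      rcases Nat.eq_zero_or_pos ⌊y₂⌋₊ with h0 | h0
      · rw [h0, Finset.Ioc_eq_empty (by omega), Finset.sum_empty]
        positivity
      · have h2 : ∑ k ∈ Finset.Ioc ⌊y₁⌋₊ ⌊y₂⌋₊, ‖bc f k‖ ^ 2 ≤
            ∑ k ∈ Finset.Icc 1 ⌊y₂⌋₊, ‖bc f k‖ ^ 2 := by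
          refine Finset.sum_le_sum_of_subset_of_nonneg ?_ fun k _ _ => sq_nonneg _
          intro k hk
          rw [Finset.mem_Ioc] at hk
          rw [Finset.mem_Icc]
          omega
        have h3 := (hb1 ⌊y₂⌋₊ h0).1
        rw [Real.rpow_one] at h3
        refine h2.trans (h3.trans (mul_le_mul_of_nonneg_left ?_ hC1.le))
        refine (Nat.floor_le hy₂0).trans (hy₂D.trans ?_)
        calc T ^ D ≤ T ^ (1 : ℝ) := Real.rpow_le_rpow_of_exponent_le hT1 (by linarith)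
          _ = T := Real.rpow_one T
    have hdiag : (G - w * K1) * Q ≤ M := by
      have j1 : Finset.Ioc ⌊y₁⌋₊ ⌊y₂⌋₊ ⊆ Finset.Icc 1 ⌊y₂⌋₊ := by
        intro k hk
        rw [Finset.mem_Ioc] at hk
        rw [Finset.mem_Icc]
        omega
      -- every index of the range belongs to `Icc 1 N` or has a zero coefficient
      have j3 : ∀ k ∈ Finset.Ioc ⌊y₁⌋₊ ⌊y₂⌋₊, ‖bc f k‖ ^ 2 = ‖bt f D T k‖ ^ 2 ∧
          (G - w * K1) ≤ J k := by
        intro k hk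
        rw [Finset.mem_Ioc] at hk
        have hk1 : 1 ≤ k := by omega
        have j2 : y₁ ≤ k := (Nat.lt_of_floor_lt hk.1).le
        have j4 : (k : ℝ) ≤ y₂ := (Nat.le_floor_iff hy₂0).1 hk.2
        refine ⟨by rw [g2 T hT1 k hk1 (j4.trans hy₂D)], ?_⟩
        have j5 : (x₁ + δ) * Real.log T ≤ Real.log k := le_log_of_rpow_le hT0 (by rw [← hy₁]; exact j2)
        have j6 : Real.log k ≤ (x₂ - δ) * Real.log T :=
          log_le_of_le_rpow hT0 hk1 (by rw [← hy₂]; exact j4)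
        have j7 := H87.RT.gauss_ge (β := β) (R := δ * Real.log T) (a := x₁ * Real.log T)
          (b := x₂ * Real.log T) (l := Real.log k) hβ hRδ (by linarith) (by linarith)
        rw [hw', ← hG, ← hK1] at j7
        rw [hJ]
        exact j7
      have j8 : ∀ k ∈ Finset.Ioc ⌊y₁⌋₊ ⌊y₂⌋₊, k ∉ Finset.Icc 1 N → bt f D T k = 0 := by
        intro k hk hkN
        rw [Finset.mem_Ioc] at hk
        rw [Finset.mem_Icc] at hkN
        unfold bt
        rw [Finset.filter_eq_empty_iff.2, Finset.sum_empty]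
        intro z hz hzk
        have h5 := (g3 T hT1 z hz).2
        rw [hzk] at h5
        have h6 : (k : ℝ) < ((N + 1 : ℕ) : ℝ) := by
          push_cast
          linarith
        have h7 : k < N + 1 := by exact_mod_cast h6
        omega
      calc (G - w * K1) * Q = ∑ k ∈ Finset.Ioc ⌊y₁⌋₊ ⌊y₂⌋₊, ‖bt f D T k‖ ^ 2 * (G - w * K1) := by
            rw [hQ, mul_comm, Finset.sum_mul]
            exact Finset.sum_congr rfl fun k hk => by rw [(j3 k hk).1]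
        _ ≤ ∑ k ∈ Finset.Ioc ⌊y₁⌋₊ ⌊y₂⌋₊, ‖bt f D T k‖ ^ 2 * J k :=
            Finset.sum_le_sum fun k hk => mul_le_mul_of_nonneg_left (j3 k hk).2 (sq_nonneg _)
        _ = ∑ k ∈ (Finset.Ioc ⌊y₁⌋₊ ⌊y₂⌋₊).filter (fun k => k ∈ Finset.Icc 1 N),
              ‖bt f D T k‖ ^ 2 * J k := by
            rw [Finset.sum_filter]
            refine Finset.sum_congr rfl fun k hk => ?_
            split_ifs with hkN
            · rfl
            · rw [j8 k hk hkN]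
              simp
        _ ≤ M := by
            rw [hM]
            refine Finset.sum_le_sum_of_subset_of_nonneg ?_ fun k _ _ =>
              mul_nonneg (sq_nonneg _) (hJ0 k)
            intro k hk
            exact (Finset.mem_filter.1 hk).2
    have k1 : w * K1 * Q ≤ 1 / 2 * T ^ (-c) := by
      have k2 : w * K1 * Q ≤ w * K1 * (C1 * T) :=
        mul_le_mul_of_nonneg_left hQ2 (by positivity)
      have k3 : w * K1 * (C1 * T) * T ≤ 1 / 2 := by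
        have k4 : K1 * C1 * (T ^ 2 * w) ≤ K1 * C1 * (T ^ 3 * w) := by
          refine mul_le_mul_of_nonneg_left (mul_le_mul_of_nonneg_right ?_ hw0) (by positivity)
          exact pow_le_pow_right₀ hT1 (by norm_num)
        have k5 : w * K1 * (C1 * T) * T = K1 * C1 * (T ^ 2 * w) := by ring
        rw [k5]
        linarith
      have k6 : w * K1 * (C1 * T) ≤ 1 / 2 * T⁻¹ := by
        rw [← div_eq_mul_inv, le_div_iff₀ hT0]
        exact k3
      linarith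
    rw [← hA, ← hy₁, ← hy₂]
    have k7 : V * G * (E2 f y₂ - E2 f y₁) ≤ V * G * Q :=
      mul_le_mul_of_nonneg_left hQ1 (by positivity)
    have k8 := mul_le_mul_of_nonneg_left hdiag hV0
    have k9 : V * ((G - w * K1) * Q) = V * G * Q - V * (w * K1 * Q) := by ring
    have k10 := mul_le_mul_of_nonneg_left k1 hV0
    linarith [hm1.1]
  · -- upper bound
    obtain ⟨y₁, hy₁⟩ : ∃ y : ℝ, y = T ^ (x₁ - δ) := ⟨_, rfl⟩
    obtain ⟨y₂, hy₂⟩ : ∃ y : ℝ, y = T ^ (x₂ + δ) := ⟨_, rfl⟩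
    have hy₁0 : 0 ≤ y₁ := by rw [hy₁]; positivity
    have hy₂0 : 0 ≤ y₂ := by rw [hy₂]; positivity
    have hy₂D : y₂ ≤ T ^ D := by
      rw [hy₂]
      exact Real.rpow_le_rpow_of_exponent_le hT1 (by linarith)
    have hy12 : y₁ ≤ y₂ := by
      rw [hy₁, hy₂]
      exact Real.rpow_le_rpow_of_exponent_le hT1 (by linarith)
    obtain ⟨Q, hQ⟩ : ∃ Q : ℝ, Q = ∑ k ∈ Finset.Ioc ⌊y₁⌋₊ ⌊y₂⌋₊, ‖bc f k‖ ^ 2 := ⟨_, rfl⟩
    have hQ1 : E2 f y₂ - E2 f y₁ = Q := by rw [hQ]; exact E2_sub_eq f hy12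
    obtain ⟨v, hv⟩ : ∃ v : ℝ, v = (x₂ * Real.log T - x₁ * Real.log T) * w := ⟨_, rfl⟩
    have hv0 : 0 ≤ v := by rw [hv]; exact mul_nonneg (by linarith) hw0
    have hdiag : M ≤ G * Q + v * S := by
      have j1 : ∀ k ∈ Finset.Icc 1 N, ‖bt f D T k‖ ^ 2 * J k ≤
          (if k ∈ Finset.Ioc ⌊y₁⌋₊ ⌊y₂⌋₊ then ‖bc f k‖ ^ 2 * G else 0) +
            ‖bt f D T k‖ ^ 2 * v := by
        intro k hk
        rw [Finset.mem_Icc] at hk
        have hk1 := hk.1
        split_ifs with hin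
        · rw [Finset.mem_Ioc] at hin
          have j4 : (k : ℝ) ≤ y₂ := (Nat.le_floor_iff hy₂0).1 hin.2
          rw [g2 T hT1 k hk1 (j4.trans hy₂D)]
          have j5 : J k ≤ G := by
            rw [hJ, hG]
            exact gauss_le hβ _ _ _ hxy
          have j6 : 0 ≤ ‖bc f k‖ ^ 2 * v := mul_nonneg (sq_nonneg _) hv0
          have j7 := mul_le_mul_of_nonneg_left j5 (sq_nonneg ‖bc f k‖)
          linarith
        · rw [zero_add]
          refine mul_le_mul_of_nonneg_left ?_ (sq_nonneg _)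
          have j5 : Real.log k ≤ x₁ * Real.log T - δ * Real.log T ∨
              x₂ * Real.log T + δ * Real.log T ≤ Real.log k := by
            rw [Finset.mem_Ioc, not_and_or, not_lt, not_le] at hin
            rcases hin with hin | hin
            · left
              have j6 : (k : ℝ) ≤ T ^ (x₁ - δ) := by
                rw [← hy₁]
                exact (Nat.le_floor_iff hy₁0).1 hin
              have := log_le_of_le_rpow hT0 hk1 j6
              linarith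
            · right
              have j6 : T ^ (x₂ + δ) ≤ (k : ℝ) := by
                rw [← hy₂]
                exact (Nat.lt_of_floor_lt hin).le
              have := le_log_of_rpow_le hT0 j6
              linarith
          have j7 := gauss_far hβ hRδ hxy j5
          rw [hw', ← hv] at j7
          rw [hJ]
          exact j7
      rw [hM]
      refine (Finset.sum_le_sum j1).trans ?_
      rw [Finset.sum_add_distrib, ← Finset.sum_mul, ← hS, mul_comm S v]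
      refine add_le_add ?_ le_rfl
      rw [← Finset.sum_filter, hQ, mul_comm G, Finset.sum_mul]
      refine Finset.sum_le_sum_of_subset_of_nonneg ?_ fun k _ _ => mul_nonneg (sq_nonneg _) hG0
      intro k hk
      exact (Finset.mem_filter.1 hk).2
    have k1 : v * S ≤ 1 / 2 * T ^ (-c) := by
      have k2 : v * S ≤ v * (C1 * (q * T)) := mul_le_mul_of_nonneg_left hS1 hv0
      have k3 : v * (C1 * (q * T)) * T ≤ 1 / 2 := by
        have k4 : v ≤ (x₂ - x₁) * T * w := by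
          rw [hv, ← sub_mul]
          refine mul_le_mul_of_nonneg_right ?_ hw0
          refine mul_le_mul_of_nonneg_left ?_ (by linarith)
          exact (Real.log_le_sub_one_of_pos hT0).trans (by linarith)
        have k5 : v * (C1 * (q * T)) * T ≤ (x₂ - x₁) * T * w * (C1 * (q * T)) * T := by
          refine mul_le_mul_of_nonneg_right (mul_le_mul_of_nonneg_right k4 (by positivity)) hT0.le
        have k6 : (x₂ - x₁) * T * w * (C1 * (q * T)) * T = (x₂ - x₁) * (C1 * q) * (T ^ 3 * w) := by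
          ring
        rw [k6] at k5
        linarith
      have k6 : v * (C1 * (q * T)) ≤ 1 / 2 * T⁻¹ := by
        rw [← div_eq_mul_inv, le_div_iff₀ hT0]
        exact k3
      linarith
    rw [← hA, ← hy₁, ← hy₂, hQ1]
    have k8 := mul_le_mul_of_nonneg_left hdiag hV0
    have k10 := mul_le_mul_of_nonneg_left k1 hV0
    have k9 : V * (G * Q + v * S) = V * G * Q + V * (v * S) := by ring
    linarith [hm1.2]

end Pool.Agent.H11.RS
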